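import Pool.Agent.H818R3.NonHomeo

/-!
# An explicit oligomorphic clone that is not reconstructible

Two closed oligomorphic (essentially unary) function clones on one countably infinite set, an
isomorphism between them which in each arity is continuous on a closed set and on the complement
of this set, and no isomorphism between them which is a homeomorphism.

The domain consists of the vertices of the countable homogeneous structure with one hyperedge
relation in each arity, and of two further points.  The members of the clones are self-embeddings
of the structure and the injective sequences `u` of vertices for which it only depends on the size
of a finite set of terms whether it is an edge, the latter with a tag attached.  Multiplication does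
not change the set of sizes carrying edges, so the tags may be changed according to this set.
-/

namespace Pool.Agent.Results.MP_a98434_lc.NonReconstructible

open Pool.Agent.H818R3

theorem result :
    ∃ (Ω : Type) (_ : Countable Ω) (_ : Infinite Ω) (C D : FunctionClone Ω),
      C.Closed ∧ D.Closed ∧ C.Oligomorphic ∧ D.Oligomorphic ∧
      (∃ φ : CloneHom C D, φ.IsIso ∧ φ.TwoPiece) ∧
      ∀ ψ : CloneHom C D, ψ.IsIso → ¬ ψ.IsHomeo := by
  obtain ⟨E, hE⟩ := exists_extProp
  exact ⟨Pt, inferInstance, inferInstance, tagClone E Zc, tagClone E Zd, main_example hE⟩

end Pool.Agent.Results.MP_a98434_lc.NonReconstructible
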