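import Pool.Agent.H818R3.ProjHom

/-!
# Baire measurable homomorphisms from oligomorphic clones to the clone `1` are continuous

Let `C` be a closed oligomorphic function clone on a countably infinite set and let `ξ` be a clone
homomorphism from `C` to the clone `1` of projections on a two-element set, such that for each
continuous map `F` of the Cantor space into the binary part of `C` the set of those points which
`ξ ∘ F` sends to the first projection has the Baire property.  Then `ξ` is continuous.

In a model of `ZF + DC` in which all sets of reals have the Baire property the hypothesis holds
for every `ξ`; the argument below only makes countably many dependent choices.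
-/

namespace Pool.Agent.Results.MP_a98434_lc.ProjHomContinuous

open Pool.Agent.H818R3

theorem result {Ω : Type*} [Countable Ω] [Infinite Ω] (C : FunctionClone Ω) (hclosed : C.Closed)
    (hol : C.Oligomorphic) (ξ : CloneHom C projClone)
    (hBaire : ∀ F : (ℕ → Bool) → C.ops 1, Continuous F →
      BaireMeasurableSet {x | ξ.map 1 (F x) = projClone.proj 1 0}) :
    ξ.Cont := by
  by_contra h
  obtain ⟨F, hF, hflip⟩ := dichotomy C hclosed hol ξ h
  exact not_baire_of_parity _ (fun x k => hflip x k) (hBaire F hF)

end Pool.Agent.Results.MP_a98434_lc.ProjHomContinuous
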